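import Mathlib

/-!
# Existence of extremal polynomials (compactness)
-/

set_option autoImplicit false

open Finset Polynomial

namespace Sendov

/-- the polynomial with zeros `a` and `z i` -/
noncomputable def PZ {N : ℕ} (a : ℂ) (z : Fin N → ℂ) : ℂ[X] := (X - C a) * ∏ i, (X - C (z i))

theorem PZ_monic {N : ℕ} (a : ℂ) (z : Fin N → ℂ) : (PZ a z).Monic :=
  (monic_X_sub_C a).mul (monic_prod_of_monic _ _ fun i _ => monic_X_sub_C (z i))

theorem PZ_natDegree {N : ℕ} (a : ℂ) (z : Fin N → ℂ) : (PZ a z).natDegree = N + 1 := by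
  unfold PZ
  rw [(monic_X_sub_C a).natDegree_mul (monic_prod_of_monic _ _ fun i _ => monic_X_sub_C (z i)),
    natDegree_X_sub_C, natDegree_prod_of_monic _ _ fun i _ => monic_X_sub_C (z i)]
  simp [add_comm]

theorem PZ_eval_eq_zero {N : ℕ} (a : ℂ) (z : Fin N → ℂ) (w : ℂ) :
    (PZ a z).eval w = 0 ↔ w = a ∨ ∃ i, w = z i := by
  unfold PZ
  rw [eval_mul, eval_prod, mul_eq_zero, Finset.prod_eq_zero_iff]
  simp [sub_eq_zero]

theorem PZ_derivative_eval {N : ℕ} (a : ℂ) (z : Fin N → ℂ) (w : ℂ) :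
    (derivative (PZ a z)).eval w = (∏ i, (w - z i)) +
      (w - a) * ∑ i, ∏ j ∈ univ.erase i, (w - z j) := by
  unfold PZ
  rw [derivative_mul, derivative_prod_finset]
  simp [eval_finsetSum, eval_prod]

theorem continuous_PZ_derivative {N : ℕ} (a w : ℂ) :
    Continuous fun z : Fin N → ℂ => (derivative (PZ a z)).eval w := by
  simp only [PZ_derivative_eval]
  fun_prop

/-- lower bound of a polynomial all of whose roots are at distance at least `m` from `a` -/
theorem le_norm_eval (R : ℂ[X]) (a : ℂ) (m : ℝ) (hm : ∀ ζ, R.eval ζ = 0 → m ≤ ‖ζ - a‖) (w : ℂ) :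
    ‖R.leadingCoeff‖ * (max (m - ‖w - a‖) 0) ^ R.natDegree ≤ ‖R.eval w‖ := by
  by_cases hR : R = 0
  · simp [hR]
  have hs : R.Splits := IsAlgClosed.splits R
  have h1 : R = C R.leadingCoeff * (R.roots.map (fun x => X - C x)).prod := hs.eq_prod_roots
  have h2 : R.natDegree = Multiset.card R.roots := hs.natDegree_eq_card_roots
  have h3 : ‖R.eval w‖ = ‖R.leadingCoeff‖ * (R.roots.map (fun x => ‖w - x‖)).prod := by
    conv_lhs => rw [h1]
    rw [eval_mul, eval_C, norm_mul, eval_multiset_prod, Multiset.map_map]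
    congr 1
    have h0 : ∀ s : Multiset ℂ, ‖(Multiset.map (eval w ∘ fun x => X - C x) s).prod‖ =
        (Multiset.map (fun x => ‖w - x‖) s).prod := by
      intro s
      induction s using Multiset.induction_on with
      | empty => simp
      | cons x s ih => rw [Multiset.map_cons, Multiset.map_cons, Multiset.prod_cons,
          Multiset.prod_cons, norm_mul, ih]; simp
    exact h0 _
  rw [h3, h2]
  refine mul_le_mul_of_nonneg_left ?_ (norm_nonneg _)
  have h4 : ∀ s : Multiset ℂ, (∀ x ∈ s, m ≤ ‖x - a‖) →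
      (max (m - ‖w - a‖) 0) ^ (Multiset.card s) ≤ (s.map (fun x => ‖w - x‖)).prod := by
    intro s
    induction s using Multiset.induction_on with
    | empty => intro _; simp
    | cons x s ih =>
      intro h
      rw [Multiset.card_cons, Multiset.map_cons, Multiset.prod_cons, pow_succ']
      refine mul_le_mul ?_ (ih fun y hy => h y (Multiset.mem_cons_of_mem hy))
        (by positivity) (norm_nonneg _)
      refine max_le ?_ (norm_nonneg _)
      have h5 := h x (Multiset.mem_cons_self x s)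
      have h6 : ‖x - a‖ ≤ ‖w - x‖ + ‖w - a‖ := by
        have : x - a = -(w - x) + (w - a) := by ring
        rw [this]
        refine (norm_add_le _ _).trans ?_
        rw [norm_neg]
      linarith
  exact h4 R.roots fun x hx => hm x ((mem_roots hR).mp hx)

theorem PZ_derivative_natDegree {N : ℕ} (a : ℂ) (z : Fin N → ℂ) :
    (derivative (PZ a z)).natDegree = N := by
  have h := degree_derivative (p := PZ a z) (by rw [PZ_natDegree]; omega)
  rw [PZ_natDegree] at h
  exact natDegree_eq_of_degree_eq_some h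

theorem PZ_derivative_leadingCoeff {N : ℕ} (a : ℂ) (z : Fin N → ℂ) :
    (derivative (PZ a z)).leadingCoeff = (N : ℂ) + 1 := by
  rw [leadingCoeff, PZ_derivative_natDegree, coeff_derivative]
  have : (PZ a z).coeff (N + 1) = 1 := by
    have h := PZ_monic a z
    rw [Monic, leadingCoeff, PZ_natDegree] at h
    exact h
  rw [this, one_mul]

/-- every admissible polynomial is a scalar multiple of some `PZ a z` -/
theorem exists_PZ (N : ℕ) (a : ℂ) (Q : ℂ[X]) (hQ : Q.natDegree = N + 1) (ha : Q.eval a = 0)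
    (hz : ∀ z, Q.eval z = 0 → ‖z‖ ≤ 1) :
    ∃ z : Fin N → ℂ, (∀ i, ‖z i‖ ≤ 1) ∧ ∃ γ : ℂ, γ ≠ 0 ∧ Q = C γ * PZ a z := by
  have hQ0 : Q ≠ 0 := by rintro rfl; simp at hQ
  have hs : Q.Splits := IsAlgClosed.splits Q
  have h1 : Q = C Q.leadingCoeff * (Q.roots.map (fun x => X - C x)).prod := hs.eq_prod_roots
  have h2 : Q.natDegree = Multiset.card Q.roots := hs.natDegree_eq_card_roots
  have ha' : a ∈ Q.roots := (mem_roots hQ0).mpr ha
  obtain ⟨s, hs'⟩ := Multiset.exists_cons_of_mem ha'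
  have hcard : Multiset.card s = N := by
    rw [hs', Multiset.card_cons, hQ] at h2; omega
  obtain ⟨l, rfl⟩ : ∃ l : List ℂ, (l : Multiset ℂ) = s := Quot.exists_rep s
  have hl : l.length = N := by simpa using hcard
  subst hl
  refine ⟨fun i => l.get i, ?_, Q.leadingCoeff, leadingCoeff_ne_zero.mpr hQ0, ?_⟩
  · intro i
    apply hz
    have : l.get i ∈ Q.roots := by
      rw [hs']
      exact Multiset.mem_cons_of_mem (by simp)
    exact ((mem_roots hQ0).mp this)
  · conv_lhs => rw [h1, hs', Multiset.map_cons, Multiset.prod_cons]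
    unfold PZ
    congr 2
    rw [Multiset.map_coe, Multiset.prod_coe]
    have : l.map (fun x => X - C x) = List.ofFn (fun i => X - C (l.get i)) := by
      conv_lhs => rw [← List.ofFn_get l, List.map_ofFn]
      rfl
    rw [this, List.prod_ofFn]

theorem exists_extremal (n : ℕ) (hn : 2 ≤ n) (a : ℂ) (ha : ‖a‖ ≤ 1) :
    ∃ (P : ℂ[X]) (d : ℝ), P.natDegree = n ∧ P.eval a = 0 ∧ (∀ z : ℂ, P.eval z = 0 → ‖z‖ ≤ 1) ∧
      (∃ ζ : ℂ, P.derivative.eval ζ = 0 ∧ ‖ζ - a‖ = d) ∧
      (∀ ζ : ℂ, P.derivative.eval ζ = 0 → d ≤ ‖ζ - a‖) ∧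
      (∀ Q : ℂ[X], Q.natDegree = n → Q.eval a = 0 → (∀ z : ℂ, Q.eval z = 0 → ‖z‖ ≤ 1) →
        ∃ ξ : ℂ, Q.derivative.eval ξ = 0 ∧ ‖ξ - a‖ ≤ d) := by
  obtain ⟨N, rfl⟩ : ∃ N, n = N + 1 := ⟨n - 1, by omega⟩
  have hN : 1 ≤ N := by omega
  set Cs : Set ((Fin N → ℂ) × ℝ) := {p | (∀ i, ‖p.1 i‖ ≤ 1) ∧ (0 ≤ p.2 ∧ p.2 ≤ 2) ∧
    ∀ w : ℂ, ((N : ℝ) + 1) * (max (p.2 - ‖w - a‖) 0) ^ N ≤ ‖(derivative (PZ a p.1)).eval w‖}
    with hCs
  have hclosed : IsClosed Cs := by
    rw [hCs]
    simp only [Set.ofPred_and, Set.ofPred_forall]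
    refine IsClosed.inter (isClosed_iInter fun i => ?_) (IsClosed.inter (IsClosed.inter ?_ ?_)
      (isClosed_iInter fun w => ?_))
    · exact isClosed_le (by fun_prop) (by fun_prop)
    · exact isClosed_le (by fun_prop) (by fun_prop)
    · exact isClosed_le (by fun_prop) (by fun_prop)
    · refine isClosed_le (by fun_prop) ?_
      exact ((continuous_PZ_derivative a w).comp continuous_fst).norm
  have hcompact : IsCompact Cs := by
    have hK : IsCompact ((Set.univ.pi fun _ : Fin N => Metric.closedBall (0 : ℂ) 1) ×ˢ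
        Set.Icc (0 : ℝ) 2) :=
      (isCompact_univ_pi fun _ => isCompact_closedBall 0 1).prod isCompact_Icc
    refine hK.of_isClosed_subset hclosed ?_
    rintro ⟨z, r⟩ ⟨h1, h2, _⟩
    exact ⟨fun i _ => by simpa using h1 i, h2⟩
  have hne : Cs.Nonempty := by
    refine ⟨(fun _ => 0, 0), fun i => by simp, ⟨le_refl _, by norm_num⟩, fun w => ?_⟩
    have : max (0 - ‖w - a‖) 0 = 0 := max_eq_right (by linarith [norm_nonneg (w - a)])
    simp only [this]
    rw [zero_pow (by omega), mul_zero]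
    exact norm_nonneg _
  obtain ⟨⟨z, d⟩, hzd, hmax⟩ := hcompact.exists_isMaxOn hne (continuous_snd.continuousOn)
  have hdeg : (PZ a z).natDegree = N + 1 := PZ_natDegree a z
  have h5 : ∀ ζ : ℂ, (derivative (PZ a z)).eval ζ = 0 → d ≤ ‖ζ - a‖ := by
    intro ζ hζ
    by_contra hlt
    push Not at hlt
    have h := hzd.2.2 ζ
    rw [hζ, norm_zero] at h
    have h1 : 0 < max (d - ‖ζ - a‖) 0 := lt_max_of_lt_left (by linarith)
    have h2 : 0 < ((N : ℝ) + 1) * (max (d - ‖ζ - a‖) 0) ^ N := by positivity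
    linarith
  have h6 : ∀ Q : ℂ[X], Q.natDegree = N + 1 → Q.eval a = 0 →
      (∀ z : ℂ, Q.eval z = 0 → ‖z‖ ≤ 1) → ∃ ξ : ℂ, Q.derivative.eval ξ = 0 ∧ ‖ξ - a‖ ≤ d := by
    intro Q hQ hQa hQz
    obtain ⟨z', hz', γ, hγ, hQe⟩ := exists_PZ N a Q hQ hQa hQz
    have hroot : ∀ ξ, Q.derivative.eval ξ = 0 ↔ (derivative (PZ a z')).eval ξ = 0 := by
      intro ξ
      rw [hQe, derivative_C_mul, eval_mul, eval_C, mul_eq_zero]
      simp [hγ]
    set R := derivative (PZ a z') with hR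
    have hRdeg : R.natDegree = N := PZ_derivative_natDegree a z'
    have hR0 : R ≠ 0 := by
      intro h; rw [h] at hRdeg; simp at hRdeg; omega
    -- minimal distance
    have hfin : (R.roots.toFinset).Nonempty := by
      obtain ⟨ξ, hξ⟩ := IsAlgClosed.exists_root R (by
        rw [degree_eq_natDegree hR0, hRdeg]
        exact_mod_cast (by omega : N ≠ 0))
      exact ⟨ξ, by rw [Multiset.mem_toFinset]; exact (mem_roots hR0).mpr hξ⟩
    obtain ⟨ξ, hξ, hmin⟩ := Finset.exists_min_image R.roots.toFinset (fun x => ‖x - a‖) hfin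
    have hξ0 : R.eval ξ = 0 := by
      rw [Multiset.mem_toFinset] at hξ
      exact (mem_roots hR0).mp hξ
    have hmin' : ∀ ζ, R.eval ζ = 0 → ‖ξ - a‖ ≤ ‖ζ - a‖ := by
      intro ζ hζ
      exact hmin ζ (by rw [Multiset.mem_toFinset]; exact (mem_roots hR0).mpr hζ)
    refine ⟨ξ, (hroot ξ).mpr hξ0, ?_⟩
    have hle := le_norm_eval R a ‖ξ - a‖ hmin'
    rw [hRdeg, hR, PZ_derivative_leadingCoeff] at hle
    have hnorm : ‖(N : ℂ) + 1‖ = (N : ℝ) + 1 := by
      have : (N : ℂ) + 1 = ((N + 1 : ℕ) : ℂ) := by push_cast; rfl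
      rw [this, Complex.norm_natCast]; push_cast; rfl
    rw [hnorm] at hle
    have hmem : (z', ‖ξ - a‖) ∈ Cs := by
      refine ⟨hz', ⟨norm_nonneg _, ?_⟩, hle⟩
      -- distance at most 2
      have h7 := hle a
      rw [sub_self, norm_zero, sub_zero, max_eq_left (norm_nonneg _), PZ_derivative_eval] at h7
      simp only [sub_self, zero_mul, add_zero] at h7
      rw [norm_prod] at h7
      have h8 : ∏ i, ‖a - z' i‖ ≤ 2 ^ N := by
        calc ∏ i, ‖a - z' i‖ ≤ ∏ _i : Fin N, (2 : ℝ) := by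
              refine Finset.prod_le_prod (fun i _ => norm_nonneg _) fun i _ => ?_
              refine (norm_sub_le _ _).trans ?_
              linarith [hz' i]
          _ = 2 ^ N := by simp
      have h9 : ‖ξ - a‖ ^ N ≤ 2 ^ N := by
        have h10 : 0 ≤ ‖ξ - a‖ ^ N := by positivity
        have h11 : (1 : ℝ) ≤ (N : ℝ) + 1 := by
          have : (0 : ℝ) ≤ N := Nat.cast_nonneg N
          linarith
        nlinarith
      exact le_of_pow_le_pow_left₀ (by omega) (by norm_num) h9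
    exact hmax hmem
  refine ⟨PZ a z, d, hdeg, ?_, ?_, ?_, h5, h6⟩
  · rw [PZ_eval_eq_zero]; left; rfl
  · intro w hw
    rcases (PZ_eval_eq_zero a z w).mp hw with rfl | ⟨i, rfl⟩
    · exact ha
    · exact hzd.1 i
  · obtain ⟨ξ, hξ, hle⟩ := h6 (PZ a z) hdeg (by rw [PZ_eval_eq_zero]; left; rfl) (by
      intro w hw
      rcases (PZ_eval_eq_zero a z w).mp hw with rfl | ⟨i, rfl⟩
      · exact ha
      · exact hzd.1 i)
    exact ⟨ξ, hξ, le_antisymm hle (h5 ξ hξ)⟩

end Sendov
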