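import Mathlib

/-!
# An explicit polynomial of degree 10 whose critical points are far from its zero `5/8`
-/

set_option autoImplicit false

open ComplexConjugate Polynomial

namespace Sendov.Good

/-- cofactor polynomial `t` -/
def tP {R : Type*} [CommRing R] (x : R) : R :=
  910316586295551300048828125 + (5921703241304100805664062500) * x + (16820888710822038439298437500) * x ^ 2 + (27074167286309245365123375000) * x ^ 3 + (26691549493524575024370481344) * x ^ 4 + (16127628541853935718448483840) * x ^ 5 + (5531440994218318213727539200) * x ^ 6 + (830696349078682853253120000) * x ^ 7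

/-- reversed polynomial -/
def tS {R : Type*} [CommRing R] (x : R) : R :=
  830696349078682853253120000 + (5531440994218318213727539200) * x + (16127628541853935718448483840) * x ^ 2 + (26691549493524575024370481344) * x ^ 3 + (27074167286309245365123375000) * x ^ 4 + (16820888710822038439298437500) * x ^ 5 + (5921703241304100805664062500) * x ^ 6 + (910316586295551300048828125) * x ^ 7

/-- factor -/
def l0 {R : Type*} [CommRing R] (x : R) : R :=
  372316885073901770000000000 + (2137095771200380980000000000) * x + (5143929586479870210000000000) * x ^ 2 + (6643509667451488570000000000) * x ^ 3 + (4854328050264758800000000000) * x ^ 4 + (1902134840819544590000000000) * x ^ 5 + (312167470595111420000000000) * x ^ 6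

/-- factor -/
def l1 {R : Type*} [CommRing R] (x : R) : R :=
  (202907203374199400000000000) * x + (994997788230878400000000000) * x ^ 2 + (1970400878074331160000000000) * x ^ 3 + (1969389010722148190000000000) * x ^ 4 + (993463058485749820000000000) * x ^ 5 + (202383833232431020000000000) * x ^ 6

/-- factor -/
def l2 {R : Type*} [CommRing R] (x : R) : R :=
  (14564238908190920000000000) * x ^ 2 + (57082023240078000000000000) * x ^ 3 + (84867753041907570000000000) * x ^ 4 + (56709706472589090000000000) * x ^ 5 + (14373866841047660000000000) * x ^ 6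

/-- factor -/
def l3 {R : Type*} [CommRing R] (x : R) : R :=
  (2347098921807430000000000) * x ^ 3 + (6909952275712310000000000) * x ^ 4 + (6883645560747130000000000) * x ^ 5 + (2319659831173610000000000) * x ^ 6

/-- factor -/
def l4 {R : Type*} [CommRing R] (x : R) : R :=
  (358071267094810000000000) * x ^ 4 + (701115558281560000000000) * x ^ 5 + (357894659280040000000000) * x ^ 6

/-- factor -/
def l5 {R : Type*} [CommRing R] (x : R) : R :=
  (16756968147200000000000) * x ^ 5 + (17082786058640000000000) * x ^ 6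

/-- factor -/
def l6 {R : Type*} [CommRing R] (x : R) : R :=
  (3070102309310000000000) * x ^ 6

theorem key {R : Type*} [CommRing R] (x y : R) : tP x * tP y - tS x * tS y = (1 - x * y) * (
    l0 x * l0 y +
    l1 x * l1 y +
    l2 x * l2 y +
    l3 x * l3 y +
    l4 x * l4 y +
    l5 x * l5 y +
    l6 x * l6 y +
    1845365907250214822876236770546187500 * ((x ^ 0 - x ^ 1) * (y ^ 0 - y ^ 1)) +
    3380064860380864874346656731026112500 * ((x ^ 0 - x ^ 2) * (y ^ 0 - y ^ 2)) +
    2627224623616379624316435874871405000 * ((x ^ 0 - x ^ 3) * (y ^ 0 - y ^ 3)) +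
    1645173258355977362102116570625000000 * ((x ^ 0 - x ^ 4) * (y ^ 0 - y ^ 4)) +
    2535180208408489223754048625000000000 * ((x ^ 0 - x ^ 5) * (y ^ 0 - y ^ 5)) +
    1906201100069327317609375000000000000 * ((x ^ 0 - x ^ 6) * (y ^ 0 - y ^ 6)) +
    7170405329240310136747043712368965500 * ((x ^ 1 - x ^ 2) * (y ^ 1 - y ^ 2)) +
    1183833164421264371205060707282702700 * ((x ^ 1 + x ^ 3) * (y ^ 1 + y ^ 3)) +
    883055636582519196678025663828595000 * ((x ^ 1 + x ^ 4) * (y ^ 1 + y ^ 4)) +
    10414593080559781684485050350625000000 * ((x ^ 1 - x ^ 5) * (y ^ 1 - y ^ 5)) +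
    10914232700387744523754048625000000000 * ((x ^ 1 - x ^ 6) * (y ^ 1 - y ^ 6)) +
    25129386926013151474526576466388053540 * ((x ^ 2 + x ^ 3) * (y ^ 2 + y ^ 3)) +
    15694463481015096433680024955622702700 * ((x ^ 2 + x ^ 4) * (y ^ 2 + y ^ 4)) +
    19145693682379385503321974336171405000 * ((x ^ 2 - x ^ 5) * (y ^ 2 - y ^ 5)) +
    26856803586608914762102116570625000000 * ((x ^ 2 - x ^ 6) * (y ^ 2 - y ^ 6)) +
    49872430693741915474526576466388053540 * ((x ^ 3 + x ^ 4) * (y ^ 3 + y ^ 4)) +
    11412940834904956428794939292717297300 * ((x ^ 3 - x ^ 5) * (y ^ 3 - y ^ 5)) +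
    34439206909937065624316435874871405000 * ((x ^ 3 - x ^ 6) * (y ^ 3 - y ^ 6)) +
    12906209897138747336747043712368965500 * ((x ^ 4 - x ^ 5) * (y ^ 4 - y ^ 5)) +
    27801995555039460674346656731026112500 * ((x ^ 4 - x ^ 6) * (y ^ 4 - y ^ 6)) +
    13040499444174653522876236770546187500 * ((x ^ 5 - x ^ 6) * (y ^ 5 - y ^ 6)) +
    999985575797840257916790071349879322310625 * (x ^ 0 * y ^ 0) +
    999962132617892669891600820145138109174925 * (x ^ 1 * y ^ 1) +
    999900491177573278450822163676142223490785 * (x ^ 2 * y ^ 2) +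
    999950221994047468277348053054684279766609 * (x ^ 3 * y ^ 3) +
    999918091126487909414828807624814566300785 * (x ^ 4 * y ^ 4) +
    999916598052236129393936586317880331770325 * (x ^ 5 * y ^ 5) +
    999880879773704532844690071349879322310625 * (x ^ 6 * y ^ 6)) := by
  simp only [tP, tS, l0, l1, l2, l3, l4, l5, l6]
  ring


theorem tS_conj (w : ℂ) : tS (conj w) = conj (tS w) := by
  simp only [tS, map_add, map_mul, map_pow, map_ofNat]

theorem l0_conj (w : ℂ) : l0 (conj w) = conj (l0 w) := by
  simp only [l0, map_add, map_mul, map_pow, map_ofNat]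

theorem l1_conj (w : ℂ) : l1 (conj w) = conj (l1 w) := by
  simp only [l1, map_add, map_mul, map_pow, map_ofNat]

theorem l2_conj (w : ℂ) : l2 (conj w) = conj (l2 w) := by
  simp only [l2, map_add, map_mul, map_pow, map_ofNat]

theorem l3_conj (w : ℂ) : l3 (conj w) = conj (l3 w) := by
  simp only [l3, map_add, map_mul, map_pow, map_ofNat]

theorem l4_conj (w : ℂ) : l4 (conj w) = conj (l4 w) := by
  simp only [l4, map_add, map_mul, map_pow, map_ofNat]

theorem l5_conj (w : ℂ) : l5 (conj w) = conj (l5 w) := by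
  simp only [l5, map_add, map_mul, map_pow, map_ofNat]

theorem l6_conj (w : ℂ) : l6 (conj w) = conj (l6 w) := by
  simp only [l6, map_add, map_mul, map_pow, map_ofNat]

/-- the positive factor -/
noncomputable def QQ (w : ℂ) : ℝ :=
    Complex.normSq (l0 w) +
    Complex.normSq (l1 w) +
    Complex.normSq (l2 w) +
    Complex.normSq (l3 w) +
    Complex.normSq (l4 w) +
    Complex.normSq (l5 w) +
    Complex.normSq (l6 w) +
    1845365907250214822876236770546187500 * Complex.normSq (w ^ 0 - w ^ 1) +
    3380064860380864874346656731026112500 * Complex.normSq (w ^ 0 - w ^ 2) +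
    2627224623616379624316435874871405000 * Complex.normSq (w ^ 0 - w ^ 3) +
    1645173258355977362102116570625000000 * Complex.normSq (w ^ 0 - w ^ 4) +
    2535180208408489223754048625000000000 * Complex.normSq (w ^ 0 - w ^ 5) +
    1906201100069327317609375000000000000 * Complex.normSq (w ^ 0 - w ^ 6) +
    7170405329240310136747043712368965500 * Complex.normSq (w ^ 1 - w ^ 2) +
    1183833164421264371205060707282702700 * Complex.normSq (w ^ 1 + w ^ 3) +
    883055636582519196678025663828595000 * Complex.normSq (w ^ 1 + w ^ 4) +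
    10414593080559781684485050350625000000 * Complex.normSq (w ^ 1 - w ^ 5) +
    10914232700387744523754048625000000000 * Complex.normSq (w ^ 1 - w ^ 6) +
    25129386926013151474526576466388053540 * Complex.normSq (w ^ 2 + w ^ 3) +
    15694463481015096433680024955622702700 * Complex.normSq (w ^ 2 + w ^ 4) +
    19145693682379385503321974336171405000 * Complex.normSq (w ^ 2 - w ^ 5) +
    26856803586608914762102116570625000000 * Complex.normSq (w ^ 2 - w ^ 6) +
    49872430693741915474526576466388053540 * Complex.normSq (w ^ 3 + w ^ 4) +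
    11412940834904956428794939292717297300 * Complex.normSq (w ^ 3 - w ^ 5) +
    34439206909937065624316435874871405000 * Complex.normSq (w ^ 3 - w ^ 6) +
    12906209897138747336747043712368965500 * Complex.normSq (w ^ 4 - w ^ 5) +
    27801995555039460674346656731026112500 * Complex.normSq (w ^ 4 - w ^ 6) +
    13040499444174653522876236770546187500 * Complex.normSq (w ^ 5 - w ^ 6) +
    999985575797840257916790071349879322310625 * Complex.normSq w ^ 0 +
    999962132617892669891600820145138109174925 * Complex.normSq w ^ 1 +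
    999900491177573278450822163676142223490785 * Complex.normSq w ^ 2 +
    999950221994047468277348053054684279766609 * Complex.normSq w ^ 3 +
    999918091126487909414828807624814566300785 * Complex.normSq w ^ 4 +
    999916598052236129393936586317880331770325 * Complex.normSq w ^ 5 +
    999880879773704532844690071349879322310625 * Complex.normSq w ^ 6

theorem QQ_pos (w : ℂ) : 0 < QQ w := by
  unfold QQ
  have h : ∀ z : ℂ, 0 ≤ Complex.normSq z := Complex.normSq_nonneg
  have h0 : Complex.normSq w ^ 0 = 1 := pow_zero _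
  rw [h0]
  have a0 := h (l0 w)
  have a1 := h (l1 w)
  have a2 := h (l2 w)
  have a3 := h (l3 w)
  have a4 := h (l4 w)
  have a5 := h (l5 w)
  have a6 := h (l6 w)
  have b0 := h (w ^ 0 - w ^ 1)
  have b1 := h (w ^ 0 - w ^ 2)
  have b2 := h (w ^ 0 - w ^ 3)
  have b3 := h (w ^ 0 - w ^ 4)
  have b4 := h (w ^ 0 - w ^ 5)
  have b5 := h (w ^ 0 - w ^ 6)
  have b6 := h (w ^ 1 - w ^ 2)
  have b7 := h (w ^ 1 + w ^ 3)
  have b8 := h (w ^ 1 + w ^ 4)
  have b9 := h (w ^ 1 - w ^ 5)
  have b10 := h (w ^ 1 - w ^ 6)
  have b11 := h (w ^ 2 + w ^ 3)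
  have b12 := h (w ^ 2 + w ^ 4)
  have b13 := h (w ^ 2 - w ^ 5)
  have b14 := h (w ^ 2 - w ^ 6)
  have b15 := h (w ^ 3 + w ^ 4)
  have b16 := h (w ^ 3 - w ^ 5)
  have b17 := h (w ^ 3 - w ^ 6)
  have b18 := h (w ^ 4 - w ^ 5)
  have b19 := h (w ^ 4 - w ^ 6)
  have b20 := h (w ^ 5 - w ^ 6)
  have c1 : 0 ≤ Complex.normSq w ^ 1 := pow_nonneg (h w) _
  have c2 : 0 ≤ Complex.normSq w ^ 2 := pow_nonneg (h w) _
  have c3 : 0 ≤ Complex.normSq w ^ 3 := pow_nonneg (h w) _
  have c4 : 0 ≤ Complex.normSq w ^ 4 := pow_nonneg (h w) _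
  have c5 : 0 ≤ Complex.normSq w ^ 5 := pow_nonneg (h w) _
  have c6 : 0 ≤ Complex.normSq w ^ 6 := pow_nonneg (h w) _
  linarith

theorem key_conj (w : ℂ) : tP w * tP (conj w) - (Complex.normSq (tS w) : ℂ) =
    (1 - (Complex.normSq w : ℂ)) * (QQ w : ℂ) := by
  have hk := key w (conj w)
  have hS : (Complex.normSq (tS w) : ℂ) = tS w * tS (conj w) := by
    rw [tS_conj, Complex.mul_conj]
  rw [hS, hk]
  unfold QQ
  push_cast
  simp only [← Complex.mul_conj, map_add, map_sub, map_pow, map_one, ← l0_conj, ← l1_conj, ← l2_conj, ← l3_conj, ← l4_conj, ← l5_conj, ← l6_conj]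
  ring

theorem tP_ne (w : ℂ) (hw : ‖w‖ < 1) : tP w ≠ 0 := by
  intro h
  have hk := key_conj w
  rw [h, zero_mul, zero_sub] at hk
  have hk' : -Complex.normSq (tS w) = (1 - Complex.normSq w) * QQ w := by exact_mod_cast hk
  have h1 := Complex.normSq_nonneg (tS w)
  have h2 := QQ_pos w
  have h3 : Complex.normSq w < 1 := by
    rw [Complex.normSq_eq_norm_sq]
    nlinarith [norm_nonneg w]
  have h4 : 0 < (1 - Complex.normSq w) * QQ w := mul_pos (by linarith) h2
  linarith

theorem quad_root (β r : ℝ) (h : β ^ 2 < 4 * r) (ξ : ℂ) (hξ : ξ ^ 2 - β * ξ + r = 0) :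
    ξ.re = β / 2 ∧ Complex.normSq ξ = r := by
  have hre := congrArg Complex.re hξ
  have him := congrArg Complex.im hξ
  simp [pow_two] at hre him
  rw [Complex.normSq_apply]
  have h1 : ξ.im * (2 * ξ.re - β) = 0 := by linarith
  rcases mul_eq_zero.mp h1 with h2 | h2
  · exfalso
    rw [h2] at hre
    nlinarith [sq_nonneg (ξ.re - β / 2)]
  · have h3 : ξ.re = β / 2 := by linarith
    refine ⟨h3, ?_⟩
    have h4 : β = 2 * ξ.re := by linarith
    rw [h4] at hre
    nlinarith

/-- the polynomial -/
noncomputable def Qp : ℂ[X] :=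
  (X - C (5/8)) * (X + C 1) * (X ^ 2 + C (40943/25000) * X + C 1) *
    (X ^ 2 + C (17249/25000) * X + C (49243/50000)) * (X ^ 2 - C (21957/25000) * X + C 1) ^ 2

/-- cofactor of the derivative -/
noncomputable def evT (ξ : ℂ) : ℂ :=
  (((ξ + 1) + (ξ - 5/8)) * (ξ ^ 2 + 40943/25000 * ξ + 1) * (ξ ^ 2 + 17249/25000 * ξ + 49243/50000)
    + (ξ - 5/8) * (ξ + 1) * (2 * ξ + 40943/25000) * (ξ ^ 2 + 17249/25000 * ξ + 49243/50000)
    + (ξ - 5/8) * (ξ + 1) * (ξ ^ 2 + 40943/25000 * ξ + 1) * (2 * ξ + 17249/25000))
    * (ξ ^ 2 - 21957/25000 * ξ + 1)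
  + 2 * ((ξ - 5/8) * (ξ + 1) * (ξ ^ 2 + 40943/25000 * ξ + 1) *
    (ξ ^ 2 + 17249/25000 * ξ + 49243/50000)) * (2 * ξ - 21957/25000)

theorem Qp_derivative (ξ : ℂ) :
    Qp.derivative.eval ξ = (ξ ^ 2 - 21957/25000 * ξ + 1) * evT ξ := by
  unfold Qp evT
  simp [derivative_mul, derivative_pow]
  ring

theorem evT_eq (w : ℂ) : 152587890625000000000000000 * evT (5/8 + 573/625 * w) = tP w := by
  unfold evT tP
  ring

theorem exists_good : ∃ Q : ℂ[X], Q.natDegree = 10 ∧ Q.eval (5/8) = 0 ∧
    (∀ z : ℂ, Q.eval z = 0 → ‖z‖ ≤ 1) ∧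
    (∀ ξ : ℂ, Q.derivative.eval ξ = 0 → 11/12 < ‖ξ - 5/8‖) := by
  refine ⟨Qp, ?_, ?_, ?_, ?_⟩
  · unfold Qp
    compute_degree!
  · unfold Qp; simp
  · intro z hz
    have hsq : Complex.normSq z ≤ 1 → ‖z‖ ≤ 1 := by
      intro h
      rw [Complex.normSq_eq_norm_sq] at h
      nlinarith [norm_nonneg z]
    unfold Qp at hz
    simp only [eval_mul, eval_sub, eval_add, eval_pow, eval_X, eval_C, mul_eq_zero,
      pow_eq_zero_iff (two_ne_zero)] at hz
    rcases hz with (((hz | hz) | hz) | hz) | hz
    · have : z = 5/8 := by linear_combination hz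
      rw [this]; norm_num
    · have : z = -1 := by linear_combination hz
      rw [this]; norm_num
    · have h := quad_root (-(40943/25000)) 1 (by norm_num) z (by
        push_cast; linear_combination hz)
      exact hsq h.2.le
    · have h := quad_root (-(17249/25000)) (49243/50000) (by norm_num) z (by
        push_cast; linear_combination hz)
      exact hsq (h.2.le.trans (by norm_num))
    · have h := quad_root (21957/25000) 1 (by norm_num) z (by
        push_cast; linear_combination hz)
      exact hsq h.2.le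
  · intro ξ hξ
    rw [Qp_derivative] at hξ
    rcases mul_eq_zero.mp hξ with h | h
    · have h1 := quad_root (21957/25000) 1 (by norm_num) ξ (by
        push_cast; linear_combination h)
      have h2 : Complex.normSq (ξ - 5/8) = 1 - 5/4 * ξ.re + 25/64 := by
        have h3 := h1.2
        rw [Complex.normSq_apply] at h3 ⊢
        have e1 : (ξ - 5/8).re = ξ.re - 5/8 := by
          have : (5/8 : ℂ) = ((5/8 : ℝ) : ℂ) := by push_cast; ring
          rw [this, Complex.sub_re, Complex.ofReal_re]
        have e2 : (ξ - 5/8).im = ξ.im := by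
          have : (5/8 : ℂ) = ((5/8 : ℝ) : ℂ) := by push_cast; ring
          rw [this, Complex.sub_im, Complex.ofReal_im, sub_zero]
        rw [e1, e2]
        linarith
      rw [h1.1, Complex.normSq_eq_norm_sq] at h2
      by_contra hle
      push Not at hle
      nlinarith [norm_nonneg (ξ - 5/8)]
    · by_contra hle
      push Not at hle
      have hw : ‖(ξ - 5/8) * (625/573)‖ < 1 := by
        rw [norm_mul]
        have : ‖(625/573 : ℂ)‖ = 625/573 := by
          have : (625/573 : ℂ) = ((625/573 : ℝ) : ℂ) := by push_cast; ring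
          rw [this, Complex.norm_real]; norm_num
        rw [this]
        nlinarith
      apply tP_ne _ hw
      rw [← evT_eq]
      have : 5/8 + 573/625 * ((ξ - 5/8) * (625/573)) = ξ := by ring
      rw [this, h, mul_zero]

end Sendov.Good
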