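import Pool.Agent.Lib.Helper20.Sendov.Sem
import Pool.Agent.Lib.Helper20.Sendov.Exist
import Pool.Agent.Lib.Helper20.Sendov.Good

/-!
# Final assembly
-/

set_option autoImplicit false

open Finset ComplexConjugate Polynomial

namespace Sendov

/-- The disproof, from the reduction lemma `hred`. -/
theorem not_main_of
    (hred : ∀ (P : ℂ[X]), P.natDegree = 10 → P.eval (5/8) = 0 → (∀ z : ℂ, P.eval z = 0 → ‖z‖ ≤ 1) →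
      ∀ d : ℝ, 11/12 ≤ d → (∀ z : ℂ, P.derivative.eval z = 0 → ‖z - 5/8‖ = d) →
      ∃ c : ℕ → ℂ, c 9 ≠ 0 ∧ (∀ k ≤ 9, conj (c k) = c (9 - k)) ∧
        (∀ f : ℕ → ℂ, (∀ i, 7 ≤ i → f i = 0) →
          ∑ l ∈ range 7, ‖∑ m ∈ range 7, gC c m * f (l + m)‖ ^ 2 ≤
            ∑ l ∈ range 7, ‖∑ m ∈ range 7, conj (gC c (9 - m)) * f (l + m)‖ ^ 2) ∧
        (∀ v : ℕ → ℂ, 0 ≤ (∑ i ∈ range 5, ∑ j ∈ range 5, conj (v i) * v j * KC c i j).re)) :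
    ¬ (∀ n : ℕ, 2 ≤ n → ∀ a : ℂ, ∀ P : Polynomial ℂ, ∀ d : ℝ,
      P.natDegree = n → P.eval a = 0 → (∀ z : ℂ, P.eval z = 0 → ‖z‖ ≤ 1) →
      (∃ ζ : ℂ, P.derivative.eval ζ = 0 ∧ ‖ζ - a‖ = d) →
      (∀ ζ : ℂ, P.derivative.eval ζ = 0 → d ≤ ‖ζ - a‖) →
      (∀ Q : Polynomial ℂ, Q.natDegree = n → Q.eval a = 0 →
        (∀ z : ℂ, Q.eval z = 0 → ‖z‖ ≤ 1) →
        ∃ ξ : ℂ, Q.derivative.eval ξ = 0 ∧ ‖ξ - a‖ ≤ d) →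
      ∀ ζ : ℂ, P.derivative.eval ζ = 0 → ‖ζ - a‖ = d) := by
  intro H
  obtain ⟨P, d, h1, h2, h3, h4, h5, h6⟩ := exists_extremal 10 (by norm_num) (5/8)
    (by
      have : (5/8 : ℂ) = ((5/8 : ℝ) : ℂ) := by push_cast; ring
      rw [this, Complex.norm_real]; norm_num)
  have h7 := H 10 (by norm_num) (5/8) P d h1 h2 h3 h4 h5 h6
  obtain ⟨Q, q1, q2, q3, q4⟩ := Good.exists_good
  obtain ⟨ξ, hξ, hle⟩ := h6 Q q1 q2 q3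
  have hd : 11/12 ≤ d := ((q4 ξ hξ).trans_le hle).le
  obtain ⟨c, hc9, hc, hG, hK⟩ := hred P h1 h2 h3 d hd h7
  exact hc9 (no_c c hc hG hK 9 (by norm_num))

end Sendov
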