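import Mathlib

/-!
# Miller's conjecture on extremal polynomials (Ilieff-Sendov problem): definitions

Parameters: degree `10`, zero at `5/8`, radius `d₀ = 11/12`, `2 cos φ₀ = -133/330`.
-/

set_option autoImplicit false

open Finset ComplexConjugate

namespace Sendov

/-- coefficient of `c k` in the `m`-th coefficient of
`∑ k, c k * (2520/(k+1)) * 22^(9-k) * (24 X - 15)^k`. -/
def gam (m k : ℕ) : ℤ :=
  if m ≤ k then
    ((2520 / (k + 1) * 22 ^ (9 - k) * k.choose m * 24 ^ m : ℕ) : ℤ) * (-15) ^ (k - m)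
  else 0

/-- the `m`-th coefficient of `∑ k, c k * (2520/(k+1)) * 22^(9-k) * (24 X - 15)^k`. -/
noncomputable def gC (c : ℕ → ℂ) (m : ℕ) : ℂ := ∑ k ∈ range 10, (gam m k : ℂ) * c k

/-- coefficient of `c p * conj (c q)` in `K i j = ∑ₜ (9-(i-t)-(j-t)) c (i-t) conj (c (j-t))`. -/
def ck (i j p q : ℕ) : ℤ := if p ≤ i ∧ q ≤ j ∧ i - p = j - q then 9 - p - q else 0

/-- coefficient of `c p * conj (c q)` in the arc form. -/
def coefK (i j p q : ℕ) : ℤ :=
  -133 * ck i j p q
    - 330 * ((if 0 < i then ck (i - 1) j p q else 0) + (if 0 < j then ck i (j - 1) p q else 0))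
    + 330 * ((if p = i ∧ q = j + 1 then (q : ℤ) else 0) + (if p = i + 1 ∧ q = j then (p : ℤ) else 0))

/-- the arc form -/
noncomputable def KC (c : ℕ → ℂ) (i j : ℕ) : ℂ :=
  ∑ p ∈ range 10, ∑ q ∈ range 10, (coefK i j p q : ℂ) * (c p * conj (c q))

end Sendov
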