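import Pool.Agent.Lib.Helper20.Sendov.Comp

/-!
# Semantics of packed integers
-/

set_option autoImplicit false

open Finset ComplexConjugate

namespace Sendov

/-- the base -/
def XX : ℤ := 115792089237316195423570985008687907853269984665640564039457584007913129639936

/-- value of a linear form with integer coefficients -/
noncomputable def lin (w : List ℤ) (c : ℕ → ℂ) : ℂ := ∑ l ∈ range 10, ((w.getD l 0 : ℤ) : ℂ) * c l

theorem pk1_eq (w : List ℤ) : ∀ n : ℕ, w.length ≤ n →
    pk1 w = ∑ l ∈ range n, w.getD l 0 * XX ^ l := by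
  induction w with
  | nil => intro n _; simp [pk1]
  | cons a l ih =>
    intro n hn
    obtain ⟨n, rfl⟩ : ∃ m, n = m + 1 := ⟨n - 1, by simp at hn; omega⟩
    rw [Finset.sum_range_succ', pk1, ih n (by simpa using hn), Finset.mul_sum]
    simp only [List.getD_cons_succ, List.getD_cons_zero, pow_zero, mul_one, pow_succ]
    rw [add_comm]
    congr 1
    refine Finset.sum_congr rfl fun i _ => ?_
    rw [XX]; ring

theorem pk10_eq (w : List ℤ) : ∀ n : ℕ, w.length ≤ n →
    pk10 w = ∑ l ∈ range n, w.getD l 0 * XX ^ (10 * l) := by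
  induction w with
  | nil => intro n _; simp [pk10]
  | cons a l ih =>
    intro n hn
    obtain ⟨n, rfl⟩ : ∃ m, n = m + 1 := ⟨n - 1, by simp at hn; omega⟩
    rw [Finset.sum_range_succ', pk10, ih n (by simpa using hn), Finset.mul_sum]
    simp only [List.getD_cons_succ, List.getD_cons_zero, mul_zero, pow_zero, mul_one]
    rw [add_comm]
    congr 1
    refine Finset.sum_congr rfl fun i _ => ?_
    have : XX ^ (10 * (i + 1)) = XX ^ 10 * XX ^ (10 * i) := by ring
    rw [this, XX]; ring

theorem getD_le_mx (w : List ℤ) : ∀ l : ℕ, |w.getD l 0| ≤ mx w := by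
  induction w with
  | nil => intro l; simp [mx]
  | cons a w ih =>
    intro l
    cases l with
    | zero =>
      simp only [List.getD_cons_zero, mx]
      rw [Int.abs_eq_natAbs]
      exact_mod_cast le_max_left _ _
    | succ l =>
      simp only [List.getD_cons_succ, mx]
      refine (ih l).trans ?_
      exact_mod_cast le_max_right _ _

/-- `p` represents the number `F` as a combination of the `conj (c k) * c l`. -/
def Rep (c : ℕ → ℂ) (F : ℂ) (p : ℤ × ℕ) : Prop :=
  ∃ v : ℕ → ℕ → ℤ, p.1 = ∑ k ∈ range 10, ∑ l ∈ range 10, v k l * XX ^ (10 * k + l) ∧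
    (∀ k l, |v k l| ≤ p.2) ∧
    F = ∑ k ∈ range 10, ∑ l ∈ range 10, (v k l : ℂ) * (conj (c k) * c l)

theorem Rep.zero (c : ℕ → ℂ) : Rep c 0 (0, 0) :=
  ⟨fun _ _ => 0, by simp, by simp, by simp⟩

theorem Rep.add {c : ℕ → ℂ} {F G : ℂ} {p q : ℤ × ℕ} (hp : Rep c F p) (hq : Rep c G q) :
    Rep c (F + G) (padd p q) := by
  obtain ⟨v, h1, h2, h3⟩ := hp
  obtain ⟨w, g1, g2, g3⟩ := hq
  refine ⟨fun k l => v k l + w k l, ?_, ?_, ?_⟩
  · simp only [padd, h1, g1, ← Finset.sum_add_distrib, add_mul]
  · intro k l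
    simp only [padd]
    push_cast
    exact (abs_add_le _ _).trans (add_le_add (h2 k l) (g2 k l))
  · rw [h3, g3]
    push_cast
    simp only [← Finset.sum_add_distrib, add_mul]

theorem Rep.smul {c : ℕ → ℂ} {F : ℂ} {p : ℤ × ℕ} (a : ℤ) (hp : Rep c F p) :
    Rep c ((a : ℂ) * F) (psmul a p) := by
  obtain ⟨v, h1, h2, h3⟩ := hp
  refine ⟨fun k l => a * v k l, ?_, ?_, ?_⟩
  · simp only [psmul, h1, Finset.mul_sum, mul_assoc]
  · intro k l
    simp only [psmul]
    push_cast
    rw [abs_mul]
    exact mul_le_mul_of_nonneg_left (h2 k l) (abs_nonneg _)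
  · rw [h3]
    push_cast
    simp only [Finset.mul_sum, mul_assoc]

theorem Rep.outer {c : ℕ → ℂ} (u w : List ℤ) (hu : u.length ≤ 10) (hw : w.length ≤ 10) :
    Rep c (conj (lin u c) * lin w c) (outer u w) := by
  refine ⟨fun k l => u.getD k 0 * w.getD l 0, ?_, ?_, ?_⟩
  · simp only [Sendov.outer]
    rw [pk1_eq w 10 hw, pk10_eq u 10 hu, Finset.sum_mul_sum]
    refine Finset.sum_congr rfl fun k _ => Finset.sum_congr rfl fun l _ => ?_
    rw [pow_add]; ring
  · intro k l
    simp only [Sendov.outer]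
    push_cast
    rw [abs_mul]
    exact mul_le_mul (getD_le_mx u k) (getD_le_mx w l) (abs_nonneg _) (by positivity)
  · rw [lin, lin, map_sum, Finset.sum_mul_sum]
    refine Finset.sum_congr rfl fun k _ => Finset.sum_congr rfl fun l _ => ?_
    rw [map_mul]
    simp only [map_intCast]
    push_cast
    ring

theorem Rep.sum {c : ℕ → ℂ} {F : ℕ → ℂ} {f : ℕ → ℤ × ℕ} : ∀ n : ℕ,
    (∀ i < n, Rep c (F i) (f i)) → Rep c (∑ i ∈ range n, F i) (sumP f n) := by
  intro n
  induction n with
  | zero => intro _; simpa [sumP] using Rep.zero c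
  | succ n ih =>
    intro h
    rw [Finset.sum_range_succ, sumP]
    exact (ih fun i hi => h i (by omega)).add (h n (by omega))

theorem dec_length (B off : ℕ) : ∀ n D : ℕ, (dec B off n D).length = n := by
  intro n
  induction n with
  | zero => intro D; rfl
  | succ n ih => intro D; simp [dec, ih]

theorem om_length (r i : ℕ) : (om r i).length ≤ 10 := by
  unfold om; split_ifs
  · rw [dec_length]
  · simp

theorem om_nil (r i : ℕ) (hi : 7 ≤ i) : om r i = [] := by
  unfold om; rw [if_neg (by omega)]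

theorem nu_length (r i : ℕ) : (nu r i).length ≤ 10 := by
  unfold nu; split_ifs
  · rw [dec_length]
  · simp

theorem th_length (r i : ℕ) : (th r i).length ≤ 10 := by
  unfold th; rw [dec_length]

theorem un_length (m : ℕ) (hm : m < 10) : (un m).length ≤ 10 := by
  simp [un]; omega

theorem lin_un (m : ℕ) (hm : m < 10) (c : ℕ → ℂ) : lin (un m) c = c m := by
  unfold lin
  interval_cases m <;> simp [un, Finset.sum_range_succ, List.replicate]

/-! ### digits -/

theorem sum_digit_div (u : ℕ → ℕ) (B : ℕ) (hB : 0 < B) (hu : ∀ n, u n < B) : ∀ (j N : ℕ), j < N →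
    (∑ n ∈ range N, u n * B ^ n) / B ^ j % B = u j := by
  intro j
  induction j generalizing u with
  | zero =>
    intro N hN
    obtain ⟨N, rfl⟩ : ∃ m, N = m + 1 := ⟨N - 1, by omega⟩
    rw [Finset.sum_range_succ']
    simp only [pow_zero, mul_one, Nat.div_one]
    have : ∑ k ∈ range N, u (k + 1) * B ^ (k + 1) = B * ∑ k ∈ range N, u (k + 1) * B ^ k := by
      rw [Finset.mul_sum]
      refine Finset.sum_congr rfl fun k _ => ?_
      ring
    rw [this, Nat.mul_add_mod, Nat.mod_eq_of_lt (hu 0)]
  | succ j ih =>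
    intro N hN
    obtain ⟨N, rfl⟩ : ∃ m, N = m + 1 := ⟨N - 1, by omega⟩
    rw [Finset.sum_range_succ']
    have : ∑ k ∈ range N, u (k + 1) * B ^ (k + 1) = B * ∑ k ∈ range N, u (k + 1) * B ^ k := by
      rw [Finset.mul_sum]
      refine Finset.sum_congr rfl fun k _ => ?_
      ring
    rw [this, pow_succ', ← Nat.div_div_eq_div_mul]
    simp only [pow_zero, mul_one]
    rw [Nat.mul_add_div hB, Nat.div_eq_of_lt (hu 0), add_zero]
    exact ih (fun n => u (n + 1)) (fun n => hu (n + 1)) N (by omega)

theorem sum_flatten {M : Type*} [AddCommMonoid M] (f : ℕ → M) : ∀ K : ℕ,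
    ∑ k ∈ range K, ∑ l ∈ range 10, f (10 * k + l) = ∑ n ∈ range (10 * K), f n := by
  intro K
  induction K with
  | zero => simp
  | succ K ih =>
    rw [Finset.sum_range_succ, ih, show 10 * (K + 1) = 10 * K + 10 by ring, Finset.sum_range_add]

theorem dig_eq (v : ℕ → ℕ → ℤ) (b : ℕ) (hb : 2 * b <
      115792089237316195423570985008687907853269984665640564039457584007913129639936)
    (hv : ∀ k l, |v k l| ≤ b) (k l : ℕ) (hk : k < 10) (hl : l < 10) :
    dig (∑ k ∈ range 10, ∑ l ∈ range 10, v k l * XX ^ (10 * k + l)) (10 * k + l) = v k l := by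
  set H : ℕ := 57896044618658097711785492504343953926634992332820282019728792003956564819968 with hH
  set B : ℕ := 115792089237316195423570985008687907853269984665640564039457584007913129639936
    with hB
  have hXX : XX = (B : ℤ) := by simp [XX, hB]
  set u : ℕ → ℕ := fun n => (v (n / 10) (n % 10) + H).toNat with hu
  have hu0 : ∀ n, ((u n : ℕ) : ℤ) = v (n / 10) (n % 10) + H := by
    intro n
    have h1 := abs_le.mp (hv (n / 10) (n % 10))
    have h2 : (b : ℤ) ≤ H := by
      have : b ≤ H := by omega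
      exact_mod_cast this
    rw [hu]
    simp only
    rw [Int.toNat_of_nonneg]
    linarith [h1.1]
  have hu1 : ∀ n, u n < B := by
    intro n
    have h1 := abs_le.mp (hv (n / 10) (n % 10))
    have h2 : (b : ℤ) < H := by
      have : b < H := by omega
      exact_mod_cast this
    have h3 : ((u n : ℕ) : ℤ) < (B : ℤ) := by
      rw [hu0]
      have : (B : ℤ) = H + H := by simp [hB, hH]
      rw [this]
      linarith [h1.2]
    exact_mod_cast h3
  have key : (∑ k ∈ range 10, ∑ l ∈ range 10, v k l * XX ^ (10 * k + l)) +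
      (∑ n ∈ range 100, (H : ℤ) * XX ^ n) = ((∑ n ∈ range 100, u n * B ^ n : ℕ) : ℤ) := by
    push_cast
    rw [← hXX]
    have h1 := sum_flatten (fun n => v (n / 10) (n % 10) * XX ^ n) 10
    have h2 : ∀ k l : ℕ, l ∈ range 10 → v ((10 * k + l) / 10) ((10 * k + l) % 10) = v k l := by
      intro k l hl
      rw [Finset.mem_range] at hl
      congr 1
      · omega
      · omega
    have h3 : ∑ k ∈ range 10, ∑ l ∈ range 10, v k l * XX ^ (10 * k + l) =
        ∑ n ∈ range 100, v (n / 10) (n % 10) * XX ^ n := by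
      rw [← h1]
      refine Finset.sum_congr rfl fun k _ => Finset.sum_congr rfl fun l hl => ?_
      rw [h2 k l hl]
    rw [h3, ← Finset.sum_add_distrib]
    refine Finset.sum_congr rfl fun n _ => ?_
    rw [hu0]; ring
  have hoffs : ∀ N : ℕ, offs N = ∑ n ∈ range N, (H : ℤ) * XX ^ n := by
    intro N
    induction N with
    | zero => simp [offs]
    | succ N ih =>
      rw [offs, ih, Finset.sum_range_succ', Finset.mul_sum]
      simp only [pow_zero, mul_one]
      rw [add_comm]
      congr 1
      refine Finset.sum_congr rfl fun n _ => ?_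
      rw [pow_succ, XX]; ring
  unfold dig
  rw [hoffs, key, Int.toNat_natCast, sum_digit_div u B (by norm_num [hB]) hu1 (10 * k + l) 100
    (by omega), hu0]
  have e1 : (10 * k + l) / 10 = k := by omega
  have e2 : (10 * k + l) % 10 = l := by omega
  rw [e1, e2, hH]
  push_cast
  ring

theorem Rep.extract {c : ℕ → ℂ} {F : ℂ} {p : ℤ × ℕ} (h : Rep c F p) (hb : 2 * p.2 <
      115792089237316195423570985008687907853269984665640564039457584007913129639936) :
    F = ∑ k ∈ range 10, ∑ l ∈ range 10, ((dig p.1 (10 * k + l) : ℤ) : ℂ) * (conj (c k) * c l) := by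
  obtain ⟨v, h1, h2, h3⟩ := h
  rw [h3]
  refine Finset.sum_congr rfl fun k hk => Finset.sum_congr rfl fun l hl => ?_
  rw [h1, dig_eq v p.2 hb h2 k l (Finset.mem_range.mp hk) (Finset.mem_range.mp hl)]

end Sendov
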