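import Pool.Agent.Lib.Helper20.Sendov.Sym

/-!
# The certificate: no self-inversive `c` satisfies both families of inequalities
-/

set_option autoImplicit false

open Finset ComplexConjugate

namespace Sendov

/-- weight of the arc part -/
def lamK : ℤ := 309485009821345068724781056
/-- weight of the squares -/
def lamM : ℤ := 4294967296
/-- strictness -/
def etaC : ℤ := 107701337309034311375389950476740

theorem swap4 (A : ℕ → ℕ → ℕ → ℕ → ℂ) (n m : ℕ) :
    ∑ a ∈ range n, ∑ b ∈ range n, ∑ k ∈ range m, ∑ l ∈ range m, A a b k l =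
      ∑ k ∈ range m, ∑ l ∈ range m, ∑ a ∈ range n, ∑ b ∈ range n, A a b k l := by
  have h1 : ∀ a, ∑ b ∈ range n, ∑ k ∈ range m, ∑ l ∈ range m, A a b k l =
      ∑ k ∈ range m, ∑ l ∈ range m, ∑ b ∈ range n, A a b k l := by
    intro a
    rw [Finset.sum_comm]
    refine Finset.sum_congr rfl fun k _ => ?_
    rw [Finset.sum_comm]
  simp only [h1]
  rw [Finset.sum_comm]
  refine Finset.sum_congr rfl fun k _ => ?_
  rw [Finset.sum_comm]

/-- correlations -/
noncomputable def ZG (c : ℕ → ℂ) (a b : ℕ) : ℂ :=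
  ∑ l ∈ range 7, ∑ r ∈ range 8, conj (lin (om r (b + l)) c) * lin (om r (a + l)) c
/-- Schur-Cohn part -/
noncomputable def FG (c : ℕ → ℂ) (k l : ℕ) : ℂ :=
  ∑ a ∈ range 7, ∑ b ∈ range 7,
    ((gam (9 - b) k * gam (9 - a) l - gam a k * gam b l : ℤ) : ℂ) * ZG c a b
/-- correlations -/
noncomputable def ZK (c : ℕ → ℂ) (i j : ℕ) : ℂ :=
  ∑ s ∈ range 7, conj (lin (nu s i) c) * lin (nu s j) c
/-- arc part -/
noncomputable def FK (c : ℕ → ℂ) (p q : ℕ) : ℂ :=
  (lamK : ℂ) * ∑ i ∈ range 5, ∑ j ∈ range 5, ((coefK i j p q : ℤ) : ℂ) * ZK c i j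
/-- squares part -/
noncomputable def FM (c : ℕ → ℂ) (k k' : ℕ) : ℂ :=
  (lamM : ℂ) * ∑ t ∈ range 55, conj (lin (th t k') c) * lin (th t k) c
/-- strictness part -/
noncomputable def FE (c : ℕ → ℂ) (k l : ℕ) : ℂ :=
  if k = l then (etaC : ℂ) * ∑ m ∈ range 10, conj (c m) * c m else 0
/-- total -/
noncomputable def FT (c : ℕ → ℂ) (k l : ℕ) : ℂ := (FG c k l + FK c k l) + (FM c k l + FE c k l)

theorem rep_zG (c : ℕ → ℂ) (a b : ℕ) : Rep c (ZG c a b) (zG a b) :=
  Rep.sum 7 fun _ _ => Rep.sum 8 fun _ _ => Rep.outer _ _ (om_length _ _) (om_length _ _)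

theorem rep_rG (c : ℕ → ℂ) (k l : ℕ) : Rep c (FG c k l) (rG k l) :=
  Rep.sum 7 fun a _ => Rep.sum 7 fun b _ => Rep.smul _ (rep_zG c a b)

theorem rep_zK (c : ℕ → ℂ) (i j : ℕ) : Rep c (ZK c i j) (zK i j) :=
  Rep.sum 7 fun _ _ => Rep.outer _ _ (nu_length _ _) (nu_length _ _)

theorem rep_rK (c : ℕ → ℂ) (p q : ℕ) : Rep c (FK c p q) (rK p q) :=
  Rep.smul lamK (Rep.sum 5 fun i _ => Rep.sum 5 fun j _ => Rep.smul _ (rep_zK c i j))

theorem rep_rM (c : ℕ → ℂ) (k k' : ℕ) : Rep c (FM c k k') (rM k k') :=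
  Rep.smul lamM (Rep.sum 55 fun _ _ => Rep.outer _ _ (th_length _ _) (th_length _ _))

theorem rep_rE (c : ℕ → ℂ) (k l : ℕ) : Rep c (FE c k l) (rE k l) := by
  unfold FE rE
  split_ifs
  · refine Rep.smul etaC (Rep.sum 10 fun m hm => ?_)
    have := Rep.outer (c := c) (un m) (un m) (un_length m hm) (un_length m hm)
    rwa [lin_un m hm] at this
  · exact Rep.zero c

theorem rep_rT (c : ℕ → ℂ) (k l : ℕ) : Rep c (FT c k l) (rT k l) :=
  ((rep_rG c k l).add (rep_rK c k l)).add ((rep_rM c k l).add (rep_rE c k l))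

theorem rT_bound (k l : ℕ) (hk : k < 10) (hl : l < 10) : 2 * (rT k l).2 <
      115792089237316195423570985008687907853269984665640564039457584007913129639936 := by
  have h := allB_eq
  unfold allB at h
  rw [List.all_eq_true] at h
  have h2 := h k (List.mem_range.mpr hk)
  rw [List.all_eq_true] at h2
  have h3 := h2 l (List.mem_range.mpr hl)
  exact of_decide_eq_true h3

/-- the total form -/
noncomputable def WW (c : ℕ → ℂ) : ℂ :=
  ∑ k ∈ range 10, ∑ l ∈ range 10, (c k * conj (c l)) * FT c k l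

theorem sum_conj_reflect (c : ℕ → ℂ) (hc : ∀ k ≤ 9, conj (c k) = c (9 - k)) (h : ℕ → ℂ) :
    ∑ l ∈ range 10, conj (c l) * h l = ∑ l ∈ range 10, c l * h (9 - l) := by
  rw [← Finset.sum_range_reflect]
  refine Finset.sum_congr rfl fun l hl => ?_
  rw [Finset.mem_range] at hl
  rw [show 10 - 1 - l = 9 - l by omega, hc (9 - l) (by omega), show 9 - (9 - l) = l by omega]

theorem WW_eq (c : ℕ → ℂ) (hc : ∀ k ≤ 9, conj (c k) = c (9 - k)) : WW c = TT c Y := by
  unfold WW TT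
  refine Finset.sum_congr rfl fun k hk => ?_
  have h1 : ∀ l ∈ range 10, (c k * conj (c l)) * FT c k l =
      conj (c l) * (c k * ∑ m ∈ range 10, conj (c m) *
        ∑ n ∈ range 10, ((dig (rT k l).1 (10 * m + n) : ℤ) : ℂ) * c n) := by
    intro l hl
    rw [(rep_rT c k l).extract (rT_bound k l (Finset.mem_range.mp hk) (Finset.mem_range.mp hl))]
    simp only [Finset.mul_sum]
    refine Finset.sum_congr rfl fun m _ => Finset.sum_congr rfl fun n _ => ?_
    ring
  rw [Finset.sum_congr rfl h1, sum_conj_reflect c hc]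
  refine Finset.sum_congr rfl fun l _ => ?_
  rw [sum_conj_reflect c hc]
  simp only [Finset.mul_sum]
  refine Finset.sum_congr rfl fun m _ => Finset.sum_congr rfl fun n _ => ?_
  unfold Y
  ring

/-! ### positivity -/

theorem normSq_sum (x f : ℕ → ℂ) (l : ℕ) :
    ((‖∑ m ∈ range 7, x m * f (l + m)‖ ^ 2 : ℝ) : ℂ) =
      ∑ a ∈ range 7, ∑ b ∈ range 7, (x a * conj (x b)) * (conj (f (b + l)) * f (a + l)) := by
  push_cast
  rw [← Complex.mul_conj', map_sum, Finset.sum_mul_sum]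
  refine Finset.sum_congr rfl fun a _ => Finset.sum_congr rfl fun b _ => ?_
  rw [map_mul, add_comm l a, add_comm l b]
  ring

theorem GPart_eq (c x : ℕ → ℂ) :
    ((∑ r ∈ range 8, ∑ l ∈ range 7, ‖∑ m ∈ range 7, x m * lin (om r (l + m)) c‖ ^ 2 : ℝ) : ℂ) =
      ∑ a ∈ range 7, ∑ b ∈ range 7, (x a * conj (x b)) * ZG c a b := by
  have h1 : ((∑ r ∈ range 8, ∑ l ∈ range 7,
      ‖∑ m ∈ range 7, x m * lin (om r (l + m)) c‖ ^ 2 : ℝ) : ℂ) =
      ∑ r ∈ range 8, ∑ l ∈ range 7, ∑ a ∈ range 7, ∑ b ∈ range 7,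
        (x a * conj (x b)) * (conj (lin (om r (b + l)) c) * lin (om r (a + l)) c) := by
    rw [Complex.ofReal_sum]
    refine Finset.sum_congr rfl fun r _ => ?_
    rw [Complex.ofReal_sum]
    refine Finset.sum_congr rfl fun l _ => ?_
    exact normSq_sum x (fun i => lin (om r i) c) l
  rw [h1]
  unfold ZG
  simp only [Finset.mul_sum]
  rw [Finset.sum_comm]
  have h2 : ∀ l : ℕ, ∑ r ∈ range 8, ∑ a ∈ range 7, ∑ b ∈ range 7,
        (x a * conj (x b)) * (conj (lin (om r (b + l)) c) * lin (om r (a + l)) c) =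
      ∑ a ∈ range 7, ∑ b ∈ range 7, ∑ r ∈ range 8,
        (x a * conj (x b)) * (conj (lin (om r (b + l)) c) * lin (om r (a + l)) c) := by
    intro l
    rw [Finset.sum_comm]
    refine Finset.sum_congr rfl fun a _ => ?_
    rw [Finset.sum_comm]
  simp only [h2]
  rw [Finset.sum_comm]
  refine Finset.sum_congr rfl fun a _ => ?_
  rw [Finset.sum_comm]

theorem gC_prod (c : ℕ → ℂ) (a b : ℕ) :
    conj (gC c (9 - a)) * gC c (9 - b) - gC c a * conj (gC c b) =
      ∑ k ∈ range 10, ∑ l ∈ range 10,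
        ((gam (9 - b) k * gam (9 - a) l - gam a k * gam b l : ℤ) : ℂ) * (c k * conj (c l)) := by
  unfold gC
  simp only [map_sum, map_mul, map_intCast]
  rw [mul_comm (∑ x ∈ range 10, ((gam (9 - a) x : ℤ) : ℂ) * conj (c x)), Finset.sum_mul_sum,
    Finset.sum_mul_sum, ← Finset.sum_sub_distrib]
  refine Finset.sum_congr rfl fun k _ => ?_
  rw [← Finset.sum_sub_distrib]
  refine Finset.sum_congr rfl fun l _ => ?_
  push_cast
  ring

theorem certG_eq (c : ℕ → ℂ) :
    ((∑ r ∈ range 8, ∑ l ∈ range 7,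
        ‖∑ m ∈ range 7, conj (gC c (9 - m)) * lin (om r (l + m)) c‖ ^ 2 : ℝ) : ℂ) -
      ((∑ r ∈ range 8, ∑ l ∈ range 7,
        ‖∑ m ∈ range 7, gC c m * lin (om r (l + m)) c‖ ^ 2 : ℝ) : ℂ) =
      ∑ k ∈ range 10, ∑ l ∈ range 10, (c k * conj (c l)) * FG c k l := by
  rw [GPart_eq c (fun m => conj (gC c (9 - m))), GPart_eq c (gC c), ← Finset.sum_sub_distrib]
  have h1 : ∀ a ∈ range 7, (∑ b ∈ range 7,
        (conj (gC c (9 - a)) * conj (conj (gC c (9 - b)))) * ZG c a b) -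
      (∑ b ∈ range 7, (gC c a * conj (gC c b)) * ZG c a b) =
      ∑ b ∈ range 7, ∑ k ∈ range 10, ∑ l ∈ range 10,
        ((gam (9 - b) k * gam (9 - a) l - gam a k * gam b l : ℤ) : ℂ) * (c k * conj (c l))
          * ZG c a b := by
    intro a _
    rw [← Finset.sum_sub_distrib]
    refine Finset.sum_congr rfl fun b _ => ?_
    rw [← sub_mul, Complex.conj_conj, gC_prod]
    simp only [Finset.sum_mul]
  rw [Finset.sum_congr rfl h1, swap4]
  refine Finset.sum_congr rfl fun k _ => Finset.sum_congr rfl fun l _ => ?_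
  unfold FG
  simp only [Finset.mul_sum]
  refine Finset.sum_congr rfl fun a _ => Finset.sum_congr rfl fun b _ => ?_
  ring

theorem certK_eq (c : ℕ → ℂ) :
    (lamK : ℂ) * ∑ s ∈ range 7, ∑ i ∈ range 5, ∑ j ∈ range 5,
      conj (lin (nu s i) c) * lin (nu s j) c * KC c i j =
      ∑ k ∈ range 10, ∑ l ∈ range 10, (c k * conj (c l)) * FK c k l := by
  have h1 : ∑ s ∈ range 7, ∑ i ∈ range 5, ∑ j ∈ range 5,
      conj (lin (nu s i) c) * lin (nu s j) c * KC c i j =
      ∑ i ∈ range 5, ∑ j ∈ range 5, ∑ p ∈ range 10, ∑ q ∈ range 10,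
        (c p * conj (c q)) * (((coefK i j p q : ℤ) : ℂ) * ZK c i j) := by
    rw [Finset.sum_comm]
    refine Finset.sum_congr rfl fun i _ => ?_
    rw [Finset.sum_comm]
    refine Finset.sum_congr rfl fun j _ => ?_
    unfold ZK KC
    rw [← Finset.sum_mul, Finset.mul_sum]
    refine Finset.sum_congr rfl fun p _ => ?_
    rw [Finset.mul_sum]
    refine Finset.sum_congr rfl fun q _ => ?_
    ring
  rw [h1, swap4, Finset.mul_sum]
  refine Finset.sum_congr rfl fun p _ => ?_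
  rw [Finset.mul_sum]
  refine Finset.sum_congr rfl fun q _ => ?_
  unfold FK
  simp only [Finset.mul_sum]
  refine Finset.sum_congr rfl fun i _ => Finset.sum_congr rfl fun j _ => ?_
  ring

theorem certM_eq (c : ℕ → ℂ) :
    (((lamM : ℝ) * ∑ t ∈ range 55, ‖∑ k ∈ range 10, c k * lin (th t k) c‖ ^ 2 : ℝ) : ℂ) =
      ∑ k ∈ range 10, ∑ l ∈ range 10, (c k * conj (c l)) * FM c k l := by
  have h1 : ((∑ t ∈ range 55, ‖∑ k ∈ range 10, c k * lin (th t k) c‖ ^ 2 : ℝ) : ℂ) =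
      ∑ k ∈ range 10, ∑ l ∈ range 10, ∑ t ∈ range 55,
        (c k * conj (c l)) * (conj (lin (th t l) c) * lin (th t k) c) := by
    rw [Complex.ofReal_sum]
    have : ∀ t ∈ range 55, ((‖∑ k ∈ range 10, c k * lin (th t k) c‖ ^ 2 : ℝ) : ℂ) =
        ∑ k ∈ range 10, ∑ l ∈ range 10,
          (c k * conj (c l)) * (conj (lin (th t l) c) * lin (th t k) c) := by
      intro t _
      push_cast
      rw [← Complex.mul_conj', map_sum, Finset.sum_mul_sum]
      refine Finset.sum_congr rfl fun k _ => Finset.sum_congr rfl fun l _ => ?_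
      rw [map_mul]
      ring
    rw [Finset.sum_congr rfl this, Finset.sum_comm]
    refine Finset.sum_congr rfl fun k _ => ?_
    rw [Finset.sum_comm]
  rw [Complex.ofReal_mul, h1, Finset.mul_sum]
  refine Finset.sum_congr rfl fun k _ => ?_
  rw [Finset.mul_sum]
  refine Finset.sum_congr rfl fun l _ => ?_
  unfold FM
  simp only [Finset.mul_sum]
  refine Finset.sum_congr rfl fun t _ => ?_
  push_cast
  ring

theorem certE_eq (c : ℕ → ℂ) :
    (((etaC : ℝ) * (∑ k ∈ range 10, ‖c k‖ ^ 2) ^ 2 : ℝ) : ℂ) =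
      ∑ k ∈ range 10, ∑ l ∈ range 10, (c k * conj (c l)) * FE c k l := by
  have h1 : ((∑ k ∈ range 10, ‖c k‖ ^ 2 : ℝ) : ℂ) = ∑ k ∈ range 10, conj (c k) * c k := by
    rw [Complex.ofReal_sum]
    refine Finset.sum_congr rfl fun k _ => ?_
    push_cast
    rw [← Complex.conj_mul']
  have h2 : ∀ k ∈ range 10, ∑ l ∈ range 10, (c k * conj (c l)) * FE c k l =
      (conj (c k) * c k) * ((etaC : ℂ) * ∑ m ∈ range 10, conj (c m) * c m) := by
    intro k hk
    unfold FE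
    rw [Finset.sum_eq_single k]
    · rw [if_pos rfl]; ring
    · intro l _ hl
      rw [if_neg (Ne.symm hl), mul_zero]
    · intro h; exact absurd hk h
  rw [Finset.sum_congr rfl h2, ← Finset.sum_mul, ← h1]
  push_cast
  ring

theorem no_c (c : ℕ → ℂ) (hc : ∀ k ≤ 9, conj (c k) = c (9 - k))
    (hG : ∀ f : ℕ → ℂ, (∀ i, 7 ≤ i → f i = 0) →
      ∑ l ∈ range 7, ‖∑ m ∈ range 7, gC c m * f (l + m)‖ ^ 2 ≤
        ∑ l ∈ range 7, ‖∑ m ∈ range 7, conj (gC c (9 - m)) * f (l + m)‖ ^ 2)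
    (hK : ∀ v : ℕ → ℂ, 0 ≤ (∑ i ∈ range 5, ∑ j ∈ range 5, conj (v i) * v j * KC c i j).re) :
    ∀ k < 10, c k = 0 := by
  set N : ℝ := ∑ k ∈ range 10, ‖c k‖ ^ 2 with hN
  have hN0 : 0 ≤ N := Finset.sum_nonneg fun _ _ => by positivity
  -- real part of WW
  have hW : (etaC : ℝ) * N ^ 2 ≤ (WW c).re := by
    have hdecomp : WW c = (((∑ r ∈ range 8, ∑ l ∈ range 7,
          ‖∑ m ∈ range 7, conj (gC c (9 - m)) * lin (om r (l + m)) c‖ ^ 2 : ℝ) : ℂ) -
        ((∑ r ∈ range 8, ∑ l ∈ range 7,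
          ‖∑ m ∈ range 7, gC c m * lin (om r (l + m)) c‖ ^ 2 : ℝ) : ℂ)) +
        (lamK : ℂ) * (∑ s ∈ range 7, ∑ i ∈ range 5, ∑ j ∈ range 5,
          conj (lin (nu s i) c) * lin (nu s j) c * KC c i j) +
        (((lamM : ℝ) * ∑ t ∈ range 55, ‖∑ k ∈ range 10, c k * lin (th t k) c‖ ^ 2 : ℝ) : ℂ) +
        (((etaC : ℝ) * (∑ k ∈ range 10, ‖c k‖ ^ 2) ^ 2 : ℝ) : ℂ) := by
      rw [certG_eq, certK_eq, certM_eq, certE_eq]
      unfold WW FT
      simp only [mul_add, Finset.sum_add_distrib]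
      ring
    rw [hdecomp]
    have e1 : ((lamK : ℂ) * (∑ s ∈ range 7, ∑ i ∈ range 5, ∑ j ∈ range 5,
          conj (lin (nu s i) c) * lin (nu s j) c * KC c i j)).re =
        (lamK : ℝ) * ∑ s ∈ range 7, (∑ i ∈ range 5, ∑ j ∈ range 5,
          conj (lin (nu s i) c) * lin (nu s j) c * KC c i j).re := by
      rw [← Complex.re_sum]
      have : (lamK : ℂ) = ((lamK : ℝ) : ℂ) := by push_cast; rfl
      rw [this, Complex.re_ofReal_mul]
    have e2 : 0 ≤ (lamK : ℝ) * ∑ s ∈ range 7, (∑ i ∈ range 5, ∑ j ∈ range 5,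
          conj (lin (nu s i) c) * lin (nu s j) c * KC c i j).re := by
      refine mul_nonneg (by norm_num [lamK]) (Finset.sum_nonneg fun s _ => ?_)
      exact hK (fun i => lin (nu s i) c)
    have e3 : (∑ r ∈ range 8, ∑ l ∈ range 7,
          ‖∑ m ∈ range 7, gC c m * lin (om r (l + m)) c‖ ^ 2) ≤
        ∑ r ∈ range 8, ∑ l ∈ range 7,
          ‖∑ m ∈ range 7, conj (gC c (9 - m)) * lin (om r (l + m)) c‖ ^ 2 := by
      refine Finset.sum_le_sum fun r _ => ?_
      refine hG (fun i => lin (om r i) c) fun i hi => ?_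
      simp only [om_nil r i hi, lin]
      simp
    have e4 : 0 ≤ (lamM : ℝ) * ∑ t ∈ range 55, ‖∑ k ∈ range 10, c k * lin (th t k) c‖ ^ 2 :=
      mul_nonneg (by norm_num [lamM]) (Finset.sum_nonneg fun _ _ => by positivity)
    rw [Complex.add_re, Complex.add_re, Complex.add_re, Complex.sub_re, e1, Complex.ofReal_re,
      Complex.ofReal_re, Complex.ofReal_re, Complex.ofReal_re]
    rw [← hN]
    linarith
  have hle : 24 * ((etaC : ℝ) * N ^ 2) ≤ (epsC : ℝ) * (100 * N ^ 2) := by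
    have h1 := norm_TT_le c
    rw [TT_S4, ← WW_eq c hc, norm_mul] at h1
    have h2 : ‖(24 : ℂ)‖ = 24 := by simp
    rw [h2, ← hN] at h1
    have h3 := Complex.re_le_norm (WW c)
    nlinarith
  have hN2 : N ^ 2 ≤ 0 := by
    have h1 : (etaC : ℝ) = 107701337309034311375389950476740 := by norm_num [etaC]
    have h2 : (epsC : ℝ) = 649450427739665593336626609344 := by norm_num [epsC]
    rw [h1, h2] at hle
    nlinarith [sq_nonneg N]
  have hN3 : N = 0 := by nlinarith [sq_nonneg N, pow_eq_zero_iff (two_ne_zero) (a := N)]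
  intro k hk
  have h1 : ‖c k‖ ^ 2 ≤ N := by
    rw [hN]
    exact Finset.single_le_sum (f := fun k => ‖c k‖ ^ 2) (fun _ _ => by positivity)
      (Finset.mem_range.mpr hk)
  rw [hN3] at h1
  have h2 : ‖c k‖ = 0 := by nlinarith [norm_nonneg (c k)]
  exact norm_eq_zero.mp h2

end Sendov
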