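import Pool.Agent.Lib.Helper20.Sendov.Pack

/-!
# Symmetrization of quartic forms
-/

set_option autoImplicit false

open Finset ComplexConjugate

namespace Sendov

/-- quartic form with coefficient tensor `A` -/
noncomputable def TT (c : ℕ → ℂ) (A : ℕ → ℕ → ℕ → ℕ → ℤ) : ℂ :=
  ∑ k ∈ range 10, ∑ l ∈ range 10, ∑ m ∈ range 10, ∑ n ∈ range 10,
    ((A k l m n : ℤ) : ℂ) * (c k * c l * c m * c n)

theorem TT_add (c : ℕ → ℂ) (A B : ℕ → ℕ → ℕ → ℕ → ℤ) :
    TT c (fun k l m n => A k l m n + B k l m n) = TT c A + TT c B := by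
  unfold TT
  push_cast
  simp only [add_mul, Finset.sum_add_distrib]

theorem TT_swap12 (c : ℕ → ℂ) (A : ℕ → ℕ → ℕ → ℕ → ℤ) :
    TT c (fun k l m n => A l k m n) = TT c A := by
  unfold TT
  rw [Finset.sum_comm]
  refine Finset.sum_congr rfl fun k _ => Finset.sum_congr rfl fun l _ =>
    Finset.sum_congr rfl fun m _ => Finset.sum_congr rfl fun n _ => ?_
  ring

theorem TT_swap23 (c : ℕ → ℂ) (A : ℕ → ℕ → ℕ → ℕ → ℤ) :
    TT c (fun k l m n => A k m l n) = TT c A := by
  unfold TT
  refine Finset.sum_congr rfl fun k _ => ?_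
  rw [Finset.sum_comm]
  refine Finset.sum_congr rfl fun l _ =>
    Finset.sum_congr rfl fun m _ => Finset.sum_congr rfl fun n _ => ?_
  ring

theorem TT_swap34 (c : ℕ → ℂ) (A : ℕ → ℕ → ℕ → ℕ → ℤ) :
    TT c (fun k l m n => A k l n m) = TT c A := by
  unfold TT
  refine Finset.sum_congr rfl fun k _ => Finset.sum_congr rfl fun l _ => ?_
  rw [Finset.sum_comm]
  refine Finset.sum_congr rfl fun m _ => Finset.sum_congr rfl fun n _ => ?_
  ring

theorem TT_S3 (c : ℕ → ℂ) : TT c S3 = 6 * TT c Y := by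
  have e : S3 = fun k l m n => Y k l m n + Y k l n m + Y k m l n + Y k m n l + Y k n l m
      + Y k n m l := by
    funext k l m n; rfl
  rw [e]
  rw [TT_add c (fun k l m n => Y k l m n + Y k l n m + Y k m l n + Y k m n l + Y k n l m)
    (fun k l m n => Y k n m l),
    TT_add c (fun k l m n => Y k l m n + Y k l n m + Y k m l n + Y k m n l)
    (fun k l m n => Y k n l m),
    TT_add c (fun k l m n => Y k l m n + Y k l n m + Y k m l n) (fun k l m n => Y k m n l),
    TT_add c (fun k l m n => Y k l m n + Y k l n m) (fun k l m n => Y k m l n),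
    TT_add c (fun k l m n => Y k l m n) (fun k l m n => Y k l n m)]
  have h1 : TT c (fun k l m n => Y k l n m) = TT c Y := TT_swap34 c Y
  have h2 : TT c (fun k l m n => Y k m l n) = TT c Y := TT_swap23 c Y
  have h3 : TT c (fun k l m n => Y k m n l) = TT c Y :=
    (TT_swap23 c (fun k l m n => Y k m n l)).symm.trans h1
  have h4 : TT c (fun k l m n => Y k n l m) = TT c Y :=
    (TT_swap34 c (fun k l m n => Y k n l m)).symm.trans h2
  have h5 : TT c (fun k l m n => Y k n m l) = TT c Y :=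
    (TT_swap34 c (fun k l m n => Y k n m l)).symm.trans h3
  rw [h1, h2, h3, h4, h5]
  ring

theorem TT_S4 (c : ℕ → ℂ) : TT c S4 = 24 * TT c Y := by
  have e : S4 = fun k l m n => S3 k l m n + S3 l k m n + S3 m k l n + S3 n k l m := by
    funext k l m n; rfl
  rw [e]
  rw [TT_add c (fun k l m n => S3 k l m n + S3 l k m n + S3 m k l n) (fun k l m n => S3 n k l m),
    TT_add c (fun k l m n => S3 k l m n + S3 l k m n) (fun k l m n => S3 m k l n),
    TT_add c (fun k l m n => S3 k l m n) (fun k l m n => S3 l k m n)]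
  have h1 : TT c (fun k l m n => S3 l k m n) = TT c S3 := TT_swap12 c S3
  have h2 : TT c (fun k l m n => S3 m k l n) = TT c S3 :=
    (TT_swap23 c (fun k l m n => S3 m k l n)).symm.trans h1
  have h3 : TT c (fun k l m n => S3 n k l m) = TT c S3 :=
    (TT_swap34 c (fun k l m n => S3 n k l m)).symm.trans h2
  rw [h1, h2, h3, TT_S3]
  ring

theorem S4_swap12 (k l m n : ℕ) : S4 l k m n = S4 k l m n := by
  unfold S4 S3; ring
theorem S4_swap23 (k l m n : ℕ) : S4 k m l n = S4 k l m n := by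
  unfold S4 S3; ring
theorem S4_swap34 (k l m n : ℕ) : S4 k l n m = S4 k l m n := by
  unfold S4 S3; ring

/-- reduction to sorted quadruples -/
theorem all_of_sorted (P : ℕ → ℕ → ℕ → ℕ → Prop) (h12 : ∀ k l m n, P k l m n → P l k m n)
    (h23 : ∀ k l m n, P k l m n → P k m l n) (h34 : ∀ k l m n, P k l m n → P k l n m)
    (hs : ∀ k l m n, k ≤ l → l ≤ m → m ≤ n → P k l m n) : ∀ k l m n, P k l m n := by
  have s1 : ∀ k l m n, l ≤ m → m ≤ n → P k l m n := by
    intro k l m n hlm hmn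
    rcases le_total k l with h | h
    · exact hs k l m n h hlm hmn
    rcases le_total k m with h' | h'
    · exact h12 _ _ _ _ (hs l k m n h h' hmn)
    rcases le_total k n with h'' | h''
    · exact h12 _ _ _ _ (h23 _ _ _ _ (hs l m k n hlm h' h''))
    · exact h12 _ _ _ _ (h23 _ _ _ _ (h34 _ _ _ _ (hs l m n k hlm hmn h'')))
  have s2 : ∀ k l m n, m ≤ n → P k l m n := by
    intro k l m n hmn
    rcases le_total l m with h | h
    · exact s1 k l m n h hmn
    rcases le_total l n with h' | h'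
    · exact h23 _ _ _ _ (s1 k m l n h h')
    · exact h23 _ _ _ _ (h34 _ _ _ _ (s1 k m n l hmn h'))
  intro k l m n
  rcases le_total m n with h | h
  · exact s2 k l m n h
  · exact h34 _ _ _ _ (s2 k l n m h)

/-- the bound for the symmetrized coefficients -/
def epsC : ℕ := 649450427739665593336626609344

theorem S4_small (k l m n : ℕ) (hk : k < 10) (hl : l < 10) (hm : m < 10) (hn : n < 10) :
    (S4 k l m n).natAbs ≤ epsC := by
  have key : ∀ k l m n, (k < 10 → l < 10 → m < 10 → n < 10 → (S4 k l m n).natAbs ≤ epsC) := by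
    apply all_of_sorted (fun k l m n => k < 10 → l < 10 → m < 10 → n < 10 →
      (S4 k l m n).natAbs ≤ epsC)
    · intro k l m n h a b c d
      rw [S4_swap12]; exact h b a c d
    · intro k l m n h a b c d
      rw [S4_swap23]; exact h a c b d
    · intro k l m n h a b c d
      rw [S4_swap34]; exact h a b d c
    · intro k l m n hkl hlm hmn hk hl hm hn
      have h1 := chk_eq
      rw [List.all_eq_true] at h1
      have h2 := h1 k (List.mem_range.mpr hk)
      unfold chk at h2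
      rw [List.all_eq_true] at h2
      have h3 := h2 l (List.mem_range.mpr hl)
      rw [Bool.or_eq_true, decide_eq_true_eq] at h3
      have h4 := h3.resolve_left (by omega)
      rw [List.all_eq_true] at h4
      have h5 := h4 m (List.mem_range.mpr hm)
      rw [Bool.or_eq_true, decide_eq_true_eq] at h5
      have h6 := h5.resolve_left (by omega)
      rw [List.all_eq_true] at h6
      have h7 := h6 n (List.mem_range.mpr hn)
      rw [Bool.or_eq_true, decide_eq_true_eq, decide_eq_true_eq] at h7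
      exact h7.resolve_left (by omega)
  exact key k l m n hk hl hm hn

theorem norm_TT_le (c : ℕ → ℂ) : ‖TT c S4‖ ≤ epsC * (100 * (∑ k ∈ range 10, ‖c k‖ ^ 2) ^ 2) := by
  have h1 : ‖TT c S4‖ ≤ ∑ k ∈ range 10, ∑ l ∈ range 10, ∑ m ∈ range 10, ∑ n ∈ range 10,
      (epsC : ℝ) * (‖c k‖ * ‖c l‖ * ‖c m‖ * ‖c n‖) := by
    unfold TT
    refine (norm_sum_le _ _).trans (Finset.sum_le_sum fun k hk => ?_)
    refine (norm_sum_le _ _).trans (Finset.sum_le_sum fun l hl => ?_)
    refine (norm_sum_le _ _).trans (Finset.sum_le_sum fun m hm => ?_)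
    refine (norm_sum_le _ _).trans (Finset.sum_le_sum fun n hn => ?_)
    rw [norm_mul, norm_mul, norm_mul, norm_mul]
    refine mul_le_mul_of_nonneg_right ?_ (by positivity)
    rw [Complex.norm_intCast]
    have := S4_small k l m n (Finset.mem_range.mp hk) (Finset.mem_range.mp hl)
      (Finset.mem_range.mp hm) (Finset.mem_range.mp hn)
    have h : |S4 k l m n| ≤ (epsC : ℤ) := by
      rw [Int.abs_eq_natAbs]; exact_mod_cast this
    rw [← Int.cast_abs]
    exact_mod_cast h
  have h2 : ∑ k ∈ range 10, ∑ l ∈ range 10, ∑ m ∈ range 10, ∑ n ∈ range 10,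
      (epsC : ℝ) * (‖c k‖ * ‖c l‖ * ‖c m‖ * ‖c n‖) = epsC * (∑ k ∈ range 10, ‖c k‖) ^ 4 := by
    have : (∑ k ∈ range 10, ‖c k‖) ^ 4 = (∑ k ∈ range 10, ‖c k‖) * ((∑ k ∈ range 10, ‖c k‖) *
      ((∑ k ∈ range 10, ‖c k‖) * (∑ k ∈ range 10, ‖c k‖))) := by ring
    rw [this]
    simp only [Finset.mul_sum, Finset.sum_mul]
    refine Finset.sum_congr rfl fun k _ => Finset.sum_congr rfl fun l _ =>
      Finset.sum_congr rfl fun m _ => Finset.sum_congr rfl fun n _ => ?_
    ring
  have h3 : (∑ k ∈ range 10, ‖c k‖) ^ 2 ≤ 10 * ∑ k ∈ range 10, ‖c k‖ ^ 2 := by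
    have := sq_sum_le_card_mul_sum_sq (s := range 10) (f := fun k => ‖c k‖)
    simpa using this
  have h4 : (∑ k ∈ range 10, ‖c k‖) ^ 4 ≤ 100 * (∑ k ∈ range 10, ‖c k‖ ^ 2) ^ 2 := by
    have h5 : (∑ k ∈ range 10, ‖c k‖) ^ 4 = ((∑ k ∈ range 10, ‖c k‖) ^ 2) ^ 2 := by ring
    rw [h5]
    have h6 : ((∑ k ∈ range 10, ‖c k‖) ^ 2) ^ 2 ≤ (10 * ∑ k ∈ range 10, ‖c k‖ ^ 2) ^ 2 :=
      pow_le_pow_left₀ (by positivity) h3 2
    nlinarith [h6]
  calc ‖TT c S4‖ ≤ _ := h1
    _ = epsC * (∑ k ∈ range 10, ‖c k‖) ^ 4 := h2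
    _ ≤ _ := mul_le_mul_of_nonneg_left h4 (by positivity)

end Sendov
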